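import Pool.Agent.N936.TC.Stm

/-!
# Project TC (MP_cdfe0d_gt): the two continua have interior points
-/

namespace Pool.Agent.N680.TC

open Set Topology Pool.Agent.N936.TC

/-- a bump on `(c, d)` -/
noncomputable def bump (c d s : ℝ) : ℝ := max 0 ((s - c) * (d - s))

lemma bump_pos {c d s : ℝ} (hcd : c < d) (h : 0 < bump c d s) : c < s ∧ s < d := by
  unfold bump at h
  rcases lt_max_iff.1 h with h | h
  · exact absurd h (lt_irrefl _)
  · rcases pos_and_pos_or_neg_and_neg_of_mul_pos h with ⟨h1, h2⟩ | ⟨h1, h2⟩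
    · constructor <;> linarith
    · linarith

lemma pos_bump {c d s : ℝ} (h1 : c < s) (h2 : s < d) : 0 < bump c d s :=
  lt_max_of_lt_right (mul_pos (by linarith) (by linarith))

lemma bump_zero {c d s : ℝ} (h : (s - c) * (d - s) ≤ 0) : bump c d s = 0 := max_eq_left h

lemma mk {σ : Bool → Q ≃ₜ Q} {X : Type} [TopologicalSpace X] {Φ : Q × Bool × I → X} (hM : Model σ X Φ)
    (k : Bool → ℝ) (c d : ℝ) (hc : 0 ≤ c) (hc1 : c ≤ 1) (hd : 0 ≤ d) (hd1 : d ≤ 1) :
    ∃ g : X → ℝ, Continuous g ∧ ∀ q i (s : I), g (Φ (q, i, s)) = k i * bump c d s := by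
  have h0 : bump c d ((0 : I) : ℝ) = 0 := by
    apply bump_zero
    rw [Set.Icc.coe_zero]
    nlinarith
  have h1 : bump c d ((1 : I) : ℝ) = 0 := by
    apply bump_zero
    rw [Set.Icc.coe_one]
    nlinarith
  obtain ⟨g, hg, hgf⟩ := hM.fact (fun p => k p.2.1 * bump c d p.2.2) (by
      unfold bump
      have hk : Continuous fun p : Q × Bool × I => k p.2.1 :=
        (continuous_of_discreteTopology (f := k)).comp (continuous_fst.comp continuous_snd)
      refine hk.mul ?_
      fun_prop)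
    (fun q i j => by simp only [h0, mul_zero])
    (fun q i j => by simp only [h0, h1, mul_zero])
  exact ⟨g, hg, fun q i s => hgf (q, i, s)⟩

lemma inter {σ : Bool → Q ≃ₜ Q} {X : Type} [TopologicalSpace X] {Φ : Q × Bool × I → X} (hM : Model σ X Φ)
    (A : Set (X × X)) (c d : ℝ) (hc : 0 ≤ c) (hcd : c < d) (hd : d ≤ 1)
    (hA : ∀ (q : Q) (s : I) (r : Q) (j : Bool) (t : I), 3 / 8 < (s : ℝ) → (s : ℝ) < 5 / 8 → c < (t : ℝ) →
      (t : ℝ) < d → (Φ (q, false, s), Φ (r, j, t)) ∈ A) : (interior A).Nonempty := by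
  obtain ⟨F, hF, hFf⟩ := mk hM (fun i => if i = false then 1 else 0) (3 / 8) (5 / 8) (by norm_num) (by norm_num)
    (by norm_num) (by norm_num)
  obtain ⟨H, hH, hHf⟩ := mk hM (fun _ => 1) c d hc (by linarith) (by linarith) hd
  have hU : IsOpen {z : X × X | 0 < F z.1 ∧ 0 < H z.2} :=
    (isOpen_lt continuous_const (hF.comp continuous_fst)).inter
      (isOpen_lt continuous_const (hH.comp continuous_snd))
  have hsub : {z : X × X | 0 < F z.1 ∧ 0 < H z.2} ⊆ A := by
    rintro ⟨a, b⟩ ⟨h1, h2⟩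
    obtain ⟨⟨q, i, s⟩, rfl⟩ := hM.surj a
    obtain ⟨⟨r, j, t⟩, rfl⟩ := hM.surj b
    simp only [hFf] at h1
    simp only [hHf, one_mul] at h2
    cases i with
    | true => simp at h1
    | false =>
      simp only [reduceIte, one_mul] at h1
      obtain ⟨h3, h4⟩ := bump_pos (by norm_num) h1
      obtain ⟨h5, h6⟩ := bump_pos hcd h2
      exact hA q s r j t h3 h4 h5 h6
  refine ⟨(Φ (fun _ => false, false, ⟨1 / 2, by norm_num, by norm_num⟩),
    Φ (fun _ => false, false, ⟨(c + d) / 2, by linarith, by linarith⟩)), ?_⟩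
  refine interior_maximal hsub hU ?_
  simp only [mem_setOf_eq, hFf, hHf, reduceIte, one_mul]
  exact ⟨pos_bump (by norm_num) (by norm_num), pos_bump (by linarith) (by linarith)⟩

theorem t_INT : S_INT := by
  intro σ X _ Φ hM
  constructor
  · refine inter hM _ (1 / 16) (3 / 16) (by norm_num) (by norm_num) (by norm_num) ?_
    intro q s r j t h1 h2 h3 h4
    exact ⟨q, false, s, r, j, t, Or.inr (Or.inr (Or.inr ⟨h1.le, h2.le, h3.le, h4.le⟩)), rfl⟩
  · refine inter hM _ (13 / 16) (15 / 16) (by norm_num) (by norm_num) (by norm_num) ?_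
    intro q s r j t h1 h2 h3 h4
    exact ⟨q, false, s, r, j, t, Or.inr (Or.inr (Or.inr ⟨by linarith, by linarith, by linarith, by linarith⟩)), rfl⟩

end Pool.Agent.N680.TC
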